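import Mathlib

set_option autoImplicit false

/-!
# Brauer's theorem (finitary form)

Every colouring of a long initial segment of the positive integers with `r` colours admits a
monochromatic set `{a, a + d, …, a + k d} ∪ {s d}`.
-/

namespace Pool.Agent.K3h15.PR

open Finset

/-- Finitary van der Waerden theorem. -/
theorem vdw (κ : Type) [Finite κ] (m : ℕ) : ∃ N : ℕ, ∀ c : ℕ → κ, ∃ a d : ℕ, 0 < a ∧ 0 < d ∧
    a + m * d ≤ N ∧ ∀ i ≤ m, c (a + i * d) = c a := by
  obtain ⟨ι, hι, h⟩ := Combinatorics.Line.exists_mono_in_high_dimension (Fin (m + 1)) κ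
  refine ⟨1 + m * Fintype.card ι, fun c => ?_⟩
  obtain ⟨l, col, hl⟩ := h (fun v => c (1 + ∑ i, (v i : ℕ)))
  classical
  -- active coordinates
  let A : Finset ι := Finset.univ.filter (fun i => l.idxFun i = none)
  have hA : 0 < A.card := by
    obtain ⟨i, hi⟩ := l.proper
    exact Finset.card_pos.2 ⟨i, by simp [A, hi]⟩
  let b : ℕ := ∑ i ∈ Aᶜ, ((l 0 i : Fin (m + 1)) : ℕ)
  have key : ∀ x : Fin (m + 1), ∑ i, ((l x i : Fin (m + 1)) : ℕ) = b + x * A.card := by
    intro x
    rw [← Finset.sum_compl_add_sum A]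
    congr 1
    · refine Finset.sum_congr rfl fun i hi => ?_
      have hi' : l.idxFun i ≠ none := by simpa [A] using hi
      obtain ⟨y, hy⟩ := Option.ne_none_iff_exists'.1 hi'
      rw [l.apply_some hy, l.apply_some hy]
    · rw [Finset.sum_congr rfl (g := fun _ => (x : ℕ))]
      · simp [mul_comm]
      · intro i hi
        have hi' : l.idxFun i = none := by simpa [A] using hi
        rw [l.apply_none _ _ hi']
  refine ⟨1 + b, A.card, by omega, hA, ?_, ?_⟩
  · have hb := key (Fin.last m)
    have h2 : ∑ i, ((l (Fin.last m) i : Fin (m + 1)) : ℕ) ≤ ∑ _i : ι, m :=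
      Finset.sum_le_sum fun i _ => Nat.lt_succ_iff.1 (Fin.is_lt _)
    simp only [Finset.sum_const, Finset.card_univ, smul_eq_mul, Fin.val_last] at h2 hb
    rw [mul_comm m (Fintype.card ι)]
    omega
  · intro i hi
    have h1 := hl ⟨i, Nat.lt_succ_of_le hi⟩
    have h0 := hl 0
    simp only [key] at h1 h0
    simp only [Fin.val_zero, zero_mul, add_zero] at h0
    rw [h0, ← h1]
    congr 1
    ring

/-- Brauer's theorem, finitary form, by induction on the number of colours that are used. -/
theorem brauer_aux (k s : ℕ) (hs : 0 < s) : ∀ r : ℕ, ∃ N : ℕ, 0 < N ∧ ∀ (κ : Type)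
    (c : ℕ → κ) (S : Finset κ), S.card ≤ r → (∀ n, 0 < n → n ≤ N → c n ∈ S) →
    ∃ a d : ℕ, 0 < a ∧ 0 < d ∧ a + k * d ≤ N ∧ s * d ≤ N ∧ ∀ i ≤ k, c (a + i * d) = c (s * d) := by
  intro r
  induction r with
  | zero =>
    refine ⟨1, one_pos, fun κ c S hS hc => ?_⟩
    have h1 := hc 1 one_pos le_rfl
    rw [Finset.card_eq_zero.1 (Nat.le_zero.1 hS)] at h1
    simp at h1
  | succ r ih =>
    obtain ⟨M, hM0, hM⟩ := ih
    obtain ⟨W, hW⟩ := vdw (Fin (r + 1)) ((k + 1) * M)
    refine ⟨W * (s * M + 1) + 1, by omega, fun κ c S hS hc => ?_⟩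
    classical
    -- recolour with `Fin (r + 1)`
    obtain ⟨f, hf⟩ : ∃ f : κ → Fin (r + 1), Set.InjOn f S := by
      have h1 : Fintype.card S ≤ Fintype.card (Fin (r + 1)) := by simpa using hS
      obtain ⟨e⟩ := Function.Embedding.nonempty_of_card_le h1
      refine ⟨fun x => if h : x ∈ S then e ⟨x, h⟩ else 0, fun x hx y hy hxy => ?_⟩
      have hx' : x ∈ S := hx
      have hy' : y ∈ S := hy
      simp only [hx', hy', dif_pos] at hxy
      exact congrArg Subtype.val (e.injective hxy)
    obtain ⟨a, D, ha, hD, haW, hmono⟩ := hW (fun n => f (c n))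
    have hle : ∀ n, n ≤ W → n ≤ W * (s * M + 1) + 1 := by
      intro n hn
      nlinarith [Nat.zero_le (W * (s * M))]
    have hmono' : ∀ i ≤ (k + 1) * M, c (a + i * D) = c a := by
      intro i hi
      have h1 : a + i * D ≤ W := le_trans (by gcongr) haW
      refine hf ?_ ?_ (hmono i hi)
      · exact hc _ (by omega) (hle _ h1)
      · refine hc _ ha (hle _ ?_)
        exact le_trans (Nat.le_add_right _ _) haW
    have hDW : (k + 1) * M * D ≤ W := by omega
    have hDW' : M * D ≤ W := le_trans (by nlinarith [Nat.zero_le (k * M * D)]) hDW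
    have hkDW : k * M * D ≤ W := le_trans (by nlinarith [Nat.zero_le (M * D)]) hDW
    have haW' : a ≤ W := by omega
    have hsM : ∀ j, j ≤ M → s * (j * D) ≤ W * (s * M + 1) + 1 := by
      intro j hj
      have h1 : s * (j * D) ≤ s * W := by
        gcongr
        exact le_trans (Nat.mul_le_mul_right _ hj) hDW'
      have h2 : s * W ≤ W * (s * M) := by
        have := Nat.mul_le_mul_left (W * s) hM0
        nlinarith
      nlinarith
    by_cases hex : ∃ j, 0 < j ∧ j ≤ M ∧ c (s * (j * D)) = c a
    · obtain ⟨j, hj0, hjM, hj⟩ := hex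
      refine ⟨a, j * D, ha, by positivity, ?_, hsM j hjM, ?_⟩
      · have h1 : a + k * (j * D) ≤ a + (k + 1) * M * D := by
          have : k * (j * D) ≤ (k + 1) * M * D := by
            rw [mul_assoc]
            exact Nat.mul_le_mul (Nat.le_succ k) (Nat.mul_le_mul_right _ hjM)
          omega
        exact hle _ (h1.trans haW)
      · intro i hi
        rw [hj, ← mul_assoc]
        exact hmono' _ (Nat.mul_le_mul (by omega) hjM)
    · have hmem : ∀ n, 0 < n → n ≤ M → c (s * (n * D)) ∈ S.erase (c a) := by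
        intro n hn hnM
        refine Finset.mem_erase.2 ⟨fun h => hex ⟨n, hn, hnM, h⟩, ?_⟩
        exact hc _ (by positivity) (hsM n hnM)
      have hcard : (S.erase (c a)).card ≤ r := by
        have : c a ∈ S := hc _ ha (hle _ haW')
        rw [Finset.card_erase_of_mem this]
        omega
      obtain ⟨a', d', ha', hd', h1, h2, h3⟩ := hM κ (fun n => c (s * (n * D))) _ hcard hmem
      refine ⟨s * (a' * D), s * (d' * D), by positivity, by positivity, ?_, ?_, ?_⟩
      · have := hsM _ h1
        calc s * (a' * D) + k * (s * (d' * D)) = s * ((a' + k * d') * D) := by ring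
          _ ≤ _ := this
      · have := hsM _ h2
        calc s * (s * (d' * D)) = s * ((s * d') * D) := by ring
          _ ≤ _ := this
      · intro i hi
        have := h3 i hi
        calc c (s * (a' * D) + i * (s * (d' * D))) = c (s * ((a' + i * d') * D)) := by
              congr 1; ring
          _ = c (s * (s * d' * D)) := this
          _ = c (s * (s * (d' * D))) := by congr 1; ring

/-- Brauer's theorem: every finite colouring of the positive integers has a monochromatic set
`{a, a + d, …, a + k d, s d}`. -/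
theorem brauer (k s r : ℕ) (hs : 0 < s) (c : ℕ → Fin r) :
    ∃ a d : ℕ, 0 < a ∧ 0 < d ∧ ∀ i ≤ k, c (a + i * d) = c (s * d) := by
  obtain ⟨N, -, h⟩ := brauer_aux k s hs r
  obtain ⟨a, d, ha, hd, -, -, h1⟩ := h (Fin r) c Finset.univ (by simp) (by simp)
  exact ⟨a, d, ha, hd, h1⟩

end Pool.Agent.K3h15.PR
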