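import Mathlib

set_option autoImplicit false

/-!
# Growth colourings for `x - 2 y = p(z)`, `deg p ≥ 2`
-/

namespace Pool.Agent.K3h15.PR

open Polynomial Filter

lemma log_mod {b n m : ℕ} (hb : 2 ≤ b) (hn : 0 < n) (h1 : b * n ≤ m) (h2 : m < b ^ 3 * n) :
    Nat.log b m % 4 ≠ Nat.log b n % 4 := by
  have hb1 : 1 < b := hb
  have h3 : Nat.log b n + 1 ≤ Nat.log b m := by
    have : Nat.log b (n * b) ≤ Nat.log b m := Nat.log_mono_right (by linarith)
    rwa [Nat.log_mul_base hb1 hn.ne'] at this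
  have h4 : Nat.log b m < Nat.log b n + 4 := by
    have hm : m ≠ 0 := by
      have : 0 < b * n := by positivity
      omega
    apply Nat.log_lt_of_lt_pow hm
    calc m < b ^ 3 * n := h2
      _ < b ^ 3 * b ^ (Nat.log b n + 1) := by
          have := Nat.lt_pow_succ_log_self hb1 n
          gcongr
      _ = b ^ (Nat.log b n + 4) := by ring
  omega

lemma col1 {x y : ℕ} (hy : 0 < y) (h1 : 7 * y ≤ 4 * x) (h2 : 4 * x ≤ 9 * y) :
    Nat.log 2 (x ^ 2) % 4 ≠ Nat.log 2 (y ^ 2) % 4 := by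
  apply log_mod le_rfl (by positivity)
  · nlinarith
  · nlinarith

lemma arith {d u C v : ℤ} (hd : 2 ≤ d) (hC : 0 ≤ C) (hu : 0 < u) (e5 : 2 * C ≤ u)
    (e3 : d * u ≤ v + C) (e4 : v ≤ d * u + C) (hv : 0 ≤ v) :
    d * u ^ 2 ≤ v ^ 2 ∧ v ^ 2 < d ^ 3 * u ^ 2 := by
  have hdu : 0 ≤ d * u := by positivity
  have b1 : d * u * (2 * C) ≤ d * u * u := mul_le_mul_of_nonneg_left e5 hdu
  have b0 : 2 * u ≤ d * u := mul_le_mul_of_nonneg_right hd hu.le
  have u2 : 0 < u ^ 2 := by positivity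
  constructor
  · have a2 : 0 ≤ d * u - C := by linarith
    have a4 : (d * u - C) ^ 2 ≤ v ^ 2 := pow_le_pow_left₀ a2 (by linarith) 2
    have a5 : 2 * d * u ^ 2 ≤ d ^ 2 * u ^ 2 := by
      have : 2 * d ≤ d ^ 2 := by nlinarith
      exact mul_le_mul_of_nonneg_right this u2.le
    have a6 : (d * u - C) ^ 2 = d ^ 2 * u ^ 2 - d * u * (2 * C) + C ^ 2 := by ring
    have a7 : d * u * u = d * u ^ 2 := by ring
    have a8 : 0 ≤ C ^ 2 := by positivity
    linarith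
  · have a4 : v ^ 2 ≤ (d * u + C) ^ 2 := pow_le_pow_left₀ hv e4 2
    have a6 : (d * u + C) ^ 2 = d ^ 2 * u ^ 2 + d * u * (2 * C) + C ^ 2 := by ring
    have a7 : d * u * u = d * u ^ 2 := by ring
    have b2 : (2 * C) ^ 2 ≤ u ^ 2 := pow_le_pow_left₀ (by linarith) e5 2
    have b3 : (d ^ 2 + d + 1) * u ^ 2 ≤ d ^ 3 * u ^ 2 := by
      have h1 : d ^ 2 * 2 ≤ d ^ 2 * d := mul_le_mul_of_nonneg_left hd (by positivity)
      have h2 : d * 2 ≤ d * d := mul_le_mul_of_nonneg_left hd (by linarith)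
      have : d ^ 2 + d + 1 ≤ d ^ 3 := by
        have h3 : d ^ 3 = d ^ 2 * d := by ring
        have h4 : d ^ 2 = d * d := by ring
        linarith
      exact mul_le_mul_of_nonneg_right this u2.le
    have a9 : (2 * C) ^ 2 = 4 * C ^ 2 := by ring
    have a10 : (d ^ 2 + d + 1) * u ^ 2 = d ^ 2 * u ^ 2 + d * u ^ 2 + u ^ 2 := by ring
    linarith

lemma col2 {d K z w : ℕ} (hd : 2 ≤ d) (hz : 0 < z) (hw : 0 < w) (h1 : z ^ d ≤ K * w)
    (h2 : w ≤ K * z ^ d) (h3 : 2 * (Nat.log 2 K + d + 1) ≤ Nat.log 2 z) :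
    Nat.log d (Nat.log 2 w ^ 2) % 4 ≠ Nat.log d (Nat.log 2 z ^ 2) % 4 := by
  obtain ⟨u, hu⟩ : ∃ u, Nat.log 2 z = u := ⟨_, rfl⟩
  obtain ⟨v, hv⟩ : ∃ v, Nat.log 2 w = v := ⟨_, rfl⟩
  obtain ⟨k, hk⟩ : ∃ k, Nat.log 2 K = k := ⟨_, rfl⟩
  rw [hu, hv]
  rw [hu, hk] at h3
  have hK : K < 2 ^ (k + 1) := by rw [← hk]; exact Nat.lt_pow_succ_log_self one_lt_two K
  have hz1 : 2 ^ u ≤ z := by rw [← hu]; exact Nat.pow_log_le_self 2 hz.ne'
  have hz2 : z < 2 ^ (u + 1) := by rw [← hu]; exact Nat.lt_pow_succ_log_self one_lt_two z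
  have hw1 : 2 ^ v ≤ w := by rw [← hv]; exact Nat.pow_log_le_self 2 hw.ne'
  have hw2 : w < 2 ^ (v + 1) := by rw [← hv]; exact Nat.lt_pow_succ_log_self one_lt_two w
  have e1 : d * u < k + v + 2 := by
    have : 2 ^ (d * u) < 2 ^ (k + v + 2) := by
      calc 2 ^ (d * u) = (2 ^ u) ^ d := by rw [← pow_mul, mul_comm]
        _ ≤ z ^ d := by gcongr
        _ ≤ K * w := h1
        _ < 2 ^ (k + 1) * 2 ^ (v + 1) := Nat.mul_lt_mul'' hK hw2
        _ = 2 ^ (k + v + 2) := by rw [← pow_add]; congr 1; ring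
    exact (Nat.pow_lt_pow_iff_right one_lt_two).1 this
  have e2 : v < k + 1 + d * (u + 1) := by
    have : 2 ^ v < 2 ^ (k + 1 + d * (u + 1)) := by
      calc 2 ^ v ≤ w := hw1
        _ ≤ K * z ^ d := h2
        _ < 2 ^ (k + 1) * (2 ^ (u + 1)) ^ d := by
            have hd0 : d ≠ 0 := by omega
            exact Nat.mul_lt_mul'' hK (Nat.pow_lt_pow_left hz2 hd0)
        _ = 2 ^ (k + 1 + d * (u + 1)) := by rw [← pow_mul, ← pow_add]; congr 1; ring
    exact (Nat.pow_lt_pow_iff_right one_lt_two).1 this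
  obtain ⟨C, hC⟩ : ∃ C, k + d + 1 = C := ⟨_, rfl⟩
  have e3 : d * u ≤ v + C := by omega
  have e4 : v ≤ d * u + C := by
    have : d * (u + 1) = d * u + d := by ring
    omega
  have e5 : 2 * C ≤ u := by omega
  have hC0 : 3 ≤ C := by omega
  have hu0 : 0 < u := by omega
  obtain ⟨f1, f2⟩ := arith (d := d) (u := u) (C := C) (v := v) (by exact_mod_cast hd)
    (by positivity) (by exact_mod_cast hu0) (by exact_mod_cast e5) (by exact_mod_cast e3)
    (by exact_mod_cast e4) (by positivity)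
  exact log_mod hd (by positivity) (by exact_mod_cast f1) (by exact_mod_cast f2)

/-- A polynomial of degree `d` is comparable with `z ^ d`. -/
lemma compare (p : ℤ[X]) (hp : p ≠ 0) : ∃ K z₀ : ℕ, 0 < K ∧ ∀ z : ℕ, z₀ ≤ z →
    z ^ p.natDegree ≤ K * (p.eval (z : ℤ)).natAbs ∧
    (p.eval (z : ℤ)).natAbs ≤ K * z ^ p.natDegree := by
  obtain ⟨P, hP⟩ : ∃ P : ℝ[X], p.map (Int.castRingHom ℝ) = P := ⟨_, rfl⟩
  have hdeg : P.natDegree = p.natDegree := by
    rw [← hP]; exact natDegree_map_eq_of_injective (RingHom.injective_int _) p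
  have hlead : P.leadingCoeff = (p.leadingCoeff : ℝ) := by
    rw [← hP, leadingCoeff_map_of_injective (RingHom.injective_int _)]; rfl
  have heval : ∀ z : ℕ, P.eval (z : ℝ) = ((p.eval (z : ℤ) : ℤ) : ℝ) := by
    intro z
    rw [← hP, eval_map, show ((z : ℕ) : ℝ) = (Int.castRingHom ℝ) (z : ℤ) by simp, eval₂_at_apply]
    simp
  have h := (Polynomial.isEquivalent_atTop_lead P).isLittleO.bound (show (0:ℝ) < 1 / 2 by norm_num)
  obtain ⟨x₀, hx₀⟩ := eventually_atTop.1 (h.and (eventually_ge_atTop 0))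
  refine ⟨2 * p.leadingCoeff.natAbs, ⌈x₀⌉₊, ?_, ?_⟩
  · have : p.leadingCoeff.natAbs ≠ 0 := Int.natAbs_ne_zero.2 (leadingCoeff_ne_zero.2 hp)
    omega
  · intro z hz
    obtain ⟨h1, h2⟩ := hx₀ z (Nat.ceil_le.1 hz)
    have hA : (1 : ℝ) ≤ |(p.leadingCoeff : ℝ)| := by
      rw [← Int.cast_abs]
      exact_mod_cast Int.one_le_abs (leadingCoeff_ne_zero.2 hp)
    have hn : (((p.eval (z : ℤ)).natAbs : ℕ) : ℝ) = |P.eval (z : ℝ)| := by
      rw [heval, Nat.cast_natAbs, Int.cast_abs]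
    have hn2 : ((p.leadingCoeff.natAbs : ℕ) : ℝ) = |(p.leadingCoeff : ℝ)| := by
      rw [Nat.cast_natAbs, Int.cast_abs]
    simp only [Pi.sub_apply, Real.norm_eq_abs, hlead, hdeg, abs_mul, abs_pow] at h1
    rw [Nat.abs_cast] at h1
    have hz0 : (0 : ℝ) ≤ (z : ℝ) ^ p.natDegree := by positivity
    have e1 := abs_sub_abs_le_abs_sub (P.eval (z : ℝ)) ((p.leadingCoeff : ℝ) * (z : ℝ) ^ p.natDegree)
    have e2 := abs_sub_abs_le_abs_sub ((p.leadingCoeff : ℝ) * (z : ℝ) ^ p.natDegree) (P.eval (z : ℝ))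
    rw [abs_sub_comm ((p.leadingCoeff : ℝ) * (z : ℝ) ^ p.natDegree)] at e2
    rw [abs_mul, abs_of_nonneg hz0] at e1 e2
    constructor
    · have : ((z ^ p.natDegree : ℕ) : ℝ) ≤
          ((2 * p.leadingCoeff.natAbs * (p.eval (z : ℤ)).natAbs : ℕ) : ℝ) := by
        push_cast [hn, hn2]
        nlinarith [abs_nonneg (P.eval (z : ℝ)), mul_nonneg (sub_nonneg.2 hA) hz0,
          mul_nonneg (sub_nonneg.2 hA) (abs_nonneg (P.eval (z : ℝ)))]
      exact_mod_cast this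
    · have : (((p.eval (z : ℤ)).natAbs : ℕ) : ℝ) ≤
          ((2 * p.leadingCoeff.natAbs * z ^ p.natDegree : ℕ) : ℝ) := by
        push_cast [hn, hn2]
        nlinarith [mul_nonneg (sub_nonneg.2 hA) hz0]
      exact_mod_cast this

end Pool.Agent.K3h15.PR
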