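import Mathlib
import Pool.Agent.K3h15.PR.Growth

set_option autoImplicit false

/-!
# Colourings without monochromatic solutions of `x - 2 y = p(z)`
-/

namespace Pool.Agent.K3h15.PR

open Polynomial Filter

/-- For `deg p ≥ 2` there is a finite colouring all of whose monochromatic solutions of
`x - 2 y = p(z)` are constant. -/
theorem growth (p : ℤ[X]) (hp : 2 ≤ p.natDegree) : ∃ (r : ℕ) (c : ℕ → Fin r), ∀ x y z : ℕ,
    0 < x → 0 < y → 0 < z → c x = c y → c y = c z → (x : ℤ) - 2 * y = p.eval (z : ℤ) →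
    x = y ∧ y = z := by
  have hp0 : p ≠ 0 := by rintro rfl; simp at hp
  obtain ⟨K, z₀, hK, hcmp⟩ := compare p hp0
  obtain ⟨d, hd⟩ : ∃ d, p.natDegree = d := ⟨_, rfl⟩
  rw [hd] at hcmp hp
  obtain ⟨T, hT⟩ : ∃ T, 2 ^ (2 * (Nat.log 2 (9 * K) + d + 1)) = T := ⟨_, rfl⟩
  obtain ⟨z₁, hz₁⟩ : ∃ z₁, z₀ + T = z₁ := ⟨_, rfl⟩
  obtain ⟨P, hP⟩ : ∃ P, ∑ z ∈ Finset.range z₁, (p.eval (z : ℤ)).natAbs = P := ⟨_, rfl⟩
  obtain ⟨B, hB⟩ : ∃ B, 9 * P + z₁ = B := ⟨_, rfl⟩
  have e : Fin 4 × Fin 4 × Fin (B + 2) ≃ Fin (Fintype.card (Fin 4 × Fin 4 × Fin (B + 2))) :=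
    Fintype.equivFin _
  refine ⟨_, fun n => e (⟨Nat.log 2 (n ^ 2) % 4, Nat.mod_lt _ (by norm_num)⟩,
    ⟨Nat.log d (Nat.log 2 n ^ 2) % 4, Nat.mod_lt _ (by norm_num)⟩,
    ⟨min n (B + 1), by omega⟩), ?_⟩
  intro x y z hx hy hz hxy hyz heq
  rw [e.apply_eq_iff_eq] at hxy hyz
  simp only [Prod.mk.injEq, Fin.mk.injEq] at hxy hyz
  obtain ⟨x1, x2, x3⟩ := hxy
  obtain ⟨y1, y2, y3⟩ := hyz
  obtain ⟨q, hq⟩ : ∃ q, (p.eval (z : ℤ)).natAbs = q := ⟨_, rfl⟩
  have hq' : p.eval (z : ℤ) = q ∨ p.eval (z : ℤ) = -q := by rw [← hq]; exact Int.natAbs_eq _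
  by_cases hA : 4 * q ≤ y
  · exact absurd x1 (col1 hy (by omega) (by omega))
  · push Not at hA
    have hx9 : x < 9 * q := by omega
    by_cases hz1 : z₁ ≤ z
    · exfalso
      obtain ⟨c1, c2⟩ := hcmp z (by omega)
      rw [hq] at c1 c2
      have hlog : 2 * (Nat.log 2 (9 * K) + d + 1) ≤ Nat.log 2 z := by
        apply Nat.le_log_of_pow_le one_lt_two
        rw [hT]
        omega
      have hzd : 0 < z ^ d := by positivity
      have key : ∀ w, 0 < w → q ≤ 2 * w → w < 9 * q →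
          Nat.log d (Nat.log 2 w ^ 2) % 4 ≠ Nat.log d (Nat.log 2 z ^ 2) % 4 := by
        intro w hw h1 h2
        refine col2 hp hz hw ?_ ?_ hlog
        · calc z ^ d ≤ K * q := c1
            _ ≤ K * (2 * w) := by gcongr
            _ ≤ 9 * K * w := by nlinarith
        · calc w ≤ 9 * q := h2.le
            _ ≤ 9 * (K * z ^ d) := by gcongr
            _ = 9 * K * z ^ d := by ring
      rcases hq' with h | h
      · exact key x hx (by omega) hx9 (x2.trans y2)
      · exact key y hy (by omega) (by omega) y2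
    · push Not at hz1
      have hqP : q ≤ P := by
        rw [← hq, ← hP]
        exact Finset.single_le_sum (f := fun z : ℕ => (p.eval (z : ℤ)).natAbs)
          (fun _ _ => Nat.zero_le _) (Finset.mem_range.2 hz1)
      omega

/-- If no nonempty subset of the coefficients of `x - 2 y = c z` has sum zero, then the equation is
not partition regular. -/
theorem linear (c : ℤ) (h0 : c ≠ 0) (h1 : c ≠ 1) (h2 : c ≠ -1) (h3 : c ≠ -2) :
    ∃ (r : ℕ) (col : ℕ → Fin r), ∀ x y z : ℕ,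
    0 < x → 0 < y → 0 < z → col x = col y → col y = col z → (x : ℤ) - 2 * y = c * z → False := by
  obtain ⟨q, hq, hqp⟩ := Nat.exists_infinite_primes (c.natAbs + 4)
  have : Fact q.Prime := ⟨hqp⟩
  refine ⟨q, fun n => ⟨(n / q ^ n.factorization q) % q, Nat.mod_lt _ hqp.pos⟩, ?_⟩
  intro x y z hx hy hz hxy hyz heq
  simp only [Fin.mk.injEq] at hxy hyz
  obtain ⟨r, hr⟩ : ∃ r : ZMod q, ((x / q ^ x.factorization q : ℕ) : ZMod q) = r := ⟨_, rfl⟩
  have hry : ((y / q ^ y.factorization q : ℕ) : ZMod q) = r := by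
    rw [← hr]; exact ((ZMod.natCast_eq_natCast_iff _ _ _).2 hxy).symm
  have hrz : ((z / q ^ z.factorization q : ℕ) : ZMod q) = r := by
    rw [← hry]; exact ((ZMod.natCast_eq_natCast_iff _ _ _).2 hyz).symm
  have hr0 : r ≠ 0 := by
    rw [← hr, Ne, ZMod.natCast_eq_zero_iff]
    exact Nat.not_dvd_ordCompl hqp hx.ne'
  obtain ⟨m, hm⟩ : ∃ m, min (x.factorization q) (min (y.factorization q) (z.factorization q)) = m :=
    ⟨_, rfl⟩
  -- divide by `q ^ m`
  have key : ∀ n : ℕ, ((n / q ^ n.factorization q : ℕ) : ZMod q) = r → m ≤ n.factorization q →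
      ∃ N : ℕ, n = q ^ m * N ∧ (N : ZMod q) = if n.factorization q = m then r else 0 := by
    intro n hn hmn
    refine ⟨q ^ (n.factorization q - m) * (n / q ^ n.factorization q), ?_, ?_⟩
    · rw [← mul_assoc, ← pow_add, Nat.add_sub_cancel' hmn]
      exact (Nat.ordProj_mul_ordCompl_eq_self n q).symm
    · push_cast
      rw [hn]
      split_ifs with h
      · rw [h]; simp
      · have : n.factorization q - m ≠ 0 := by omega
        simp [this]
  obtain ⟨X, hX, hX'⟩ := key x hr (by omega)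
  obtain ⟨Y, hY, hY'⟩ := key y hry (by omega)
  obtain ⟨Z, hZ, hZ'⟩ := key z hrz (by omega)
  have hqm : ((q : ℤ) ^ m) ≠ 0 := pow_ne_zero _ (by exact_mod_cast hqp.ne_zero)
  have heq' : (X : ℤ) - 2 * Y = c * Z := by
    apply mul_left_cancel₀ hqm
    rw [hX, hY, hZ] at heq
    push_cast at heq
    linarith
  have heq2 : (X : ZMod q) - 2 * Y = c * Z := by
    have := congrArg (Int.cast : ℤ → ZMod q) heq'
    push_cast at this
    exact this
  have nz : ∀ s : ℤ, s ≠ 0 → s.natAbs < q → (s : ZMod q) * r ≠ 0 := by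
    intro s hs hsq
    refine mul_ne_zero ?_ hr0
    rw [Ne, ZMod.intCast_zmod_eq_zero_iff_dvd]
    intro hdvd
    have := Int.natAbs_dvd_natAbs.2 hdvd
    rw [Int.natAbs_natCast] at this
    have := Nat.le_of_dvd (Int.natAbs_pos.2 hs) this
    omega
  rw [hX', hY', hZ'] at heq2
  have hone : x.factorization q = m ∨ y.factorization q = m ∨ z.factorization q = m := by omega
  obtain ⟨s, hs⟩ : ∃ s : ℤ, ((if x.factorization q = m then 1 else 0) -
    2 * (if y.factorization q = m then 1 else 0) -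
    c * (if z.factorization q = m then 1 else 0)) = s := ⟨_, rfl⟩
  have hs0 : s ≠ 0 := by rw [← hs]; split_ifs <;> omega
  have hsq : s.natAbs < q := by rw [← hs]; split_ifs <;> omega
  refine nz s hs0 hsq ?_
  rw [← hs]
  split_ifs at heq2 ⊢ <;> push_cast <;> linear_combination heq2

end Pool.Agent.K3h15.PR
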